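import Mathlib

/-!
# HR: hard Lefschetz and Hodge–Riemann relations for simple polytopes. Definitions

`v j ∈ ℝ^d` (`j ∈ J`) are the normals, `P(c) = {m : ⟨m, v j⟩ ≤ c j}`. A face of the dual simplicial
sphere is a set `F ⊆ J` contained in the active set of a point of `P(c)`.
-/

set_option autoImplicit false

open MvPolynomial

namespace Pool.Agent.Helper59.LP

/-- vectors -/
abbrev Ve (d : ℕ) : Type := Fin d → ℝ

/-- dot product -/
def dt {d : ℕ} (m x : Ve d) : ℝ := ∑ k, m k * x k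

section Config

variable {J : Type} [Fintype J] [DecidableEq J] {d : ℕ}

/-- `v` is linearly independent on `σ` -/
def Ind (v : J → Ve d) (σ : Finset J) : Prop := LinearIndependent ℝ (fun j : σ => v j)

/-- positively spanning -/
def PS (v : J → Ve d) : Prop := ∀ m : Ve d, (∀ j, 0 ≤ dt m (v j)) → m = 0

/-- general position -/
def GP (v : J → Ve d) : Prop := ∀ σ : Finset J, σ.card ≤ d → Ind v σ

/-- `m ∈ P(c)` -/
def Fe (v : J → Ve d) (c : J → ℝ) (m : Ve d) : Prop := ∀ j, dt m (v j) ≤ c j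

open Classical in
/-- the active set of `m` -/
noncomputable def ac (v : J → Ve d) (c : J → ℝ) (m : Ve d) : Finset J :=
  Finset.univ.filter fun j => dt m (v j) = c j

/-- `P(c)` is simple along the face `F` -/
def Sim (v : J → Ve d) (c : J → ℝ) (F : Finset J) : Prop :=
  ∀ m, Fe v c m → F ⊆ ac v c m → Ind v (ac v c m)

open Classical in
/-- the facets of the simplicial sphere (= simple vertices of `P(c)`) -/
noncomputable def Fa (v : J → Ve d) (c : J → ℝ) : Finset (Finset J) :=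
  Finset.univ.filter fun σ => σ.card = d ∧ Ind v σ ∧ ∃ m, Fe v c m ∧ ac v c m = σ

/-- `|det|` of the vectors in `σ` (`0` if `σ` does not have `d` elements) -/
noncomputable def dv (v : J → Ve d) (σ : Finset J) : ℝ :=
  if h : σ.card = d then |Matrix.det fun k : Fin d => v ((σ.equivFinOfCardEq h).symm k)| else 0

open Classical in
/-- the coefficients `g` of `ξ = ∑ g j v j` with `g = 0` outside `σ` -/
noncomputable def cf (v : J → Ve d) (ξ : Ve d) (σ : Finset J) : J → ℝ :=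
  if h : ∃ g : J → ℝ, (∀ j, j ∉ σ → g j = 0) ∧ ∑ j, g j • v j = ξ then Classical.choose h else 0

/-- generic `ξ` -/
def GX (v : J → Ve d) (ξ : Ve d) : Prop :=
  ∀ σ : Finset J, σ.card = d → Ind v σ → ∀ j ∈ σ, cf v ξ σ j ≠ 0

/-- the term of the facet `σ` in the formula of Lawrence and Brion -/
noncomputable def tm (v : J → Ve d) (ξ : Ve d) (σ : Finset J) : MvPolynomial J ℝ →ₗ[ℝ] ℝ :=
  (dv v σ * ∏ j ∈ σ, cf v ξ σ j)⁻¹ • (aeval (cf v ξ σ)).toLinearMap

/-- the functional of a set of facets -/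
noncomputable def dgS (v : J → Ve d) (ξ : Ve d) (S : Finset (Finset J)) :
    MvPolynomial J ℝ →ₗ[ℝ] ℝ := ∑ σ ∈ S, tm v ξ σ

/-- the product of the variables of `F` -/
noncomputable def xm (F : Finset J) : MvPolynomial J ℝ := ∏ j ∈ F, X j

/-- the functional of the face `F` -/
noncomputable def fnS (v : J → Ve d) (ξ : Ve d) (S : Finset (Finset J)) (F : Finset J) :
    MvPolynomial J ℝ →ₗ[ℝ] ℝ := (dgS v ξ S).comp (LinearMap.mulLeft ℝ (xm F))

/-- the functional of the face `F` of `P(c)` -/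
noncomputable def fn (v : J → Ve d) (ξ : Ve d) (c : J → ℝ) (F : Finset J) :
    MvPolynomial J ℝ →ₗ[ℝ] ℝ := fnS v ξ (Fa v c) F

/-- the linear form `∑ c j x j` -/
noncomputable def Lf (c : J → ℝ) : MvPolynomial J ℝ := ∑ j, C (c j) * X j

/-- the linear relation of `m` -/
noncomputable def th (v : J → Ve d) (m : Ve d) : MvPolynomial J ℝ := Lf fun j => dt m (v j)

/-- a circuit -/
structure Circ (v : J → Ve d) (Z : Finset J) (lam : J → ℝ) : Prop where
  card : Z.card = d + 1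
  supp : ∀ j, lam j ≠ 0 ↔ j ∈ Z
  rel : ∑ j, lam j • v j = 0
  nrm : ∀ i ∈ Z, dv v (Z.erase i) = |lam i|

open Classical in
/-- the elements of `Z` with `lam > 0` -/
noncomputable def pz (Z : Finset J) (lam : J → ℝ) : Finset J := Z.filter fun i => 0 < lam i

end Config

section Abstract

variable {J : Type} [Fintype J] [DecidableEq J]

/-- `φ` kills the polynomials of degree `< n` and the multiples of the linear relations -/
def Van {d : ℕ} (v : J → Ve d) (φ : MvPolynomial J ℝ →ₗ[ℝ] ℝ) (n : ℕ) : Prop :=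
  (∀ k f, k < n → f.IsHomogeneous k → φ f = 0) ∧
  ∀ m k f, k + 1 = n → f.IsHomogeneous k → φ (th v m * f) = 0

/-- the Hodge–Riemann relation in degree `k` -/
def HRk (φ : MvPolynomial J ℝ →ₗ[ℝ] ℝ) (L : MvPolynomial J ℝ) (n k : ℕ) : Prop :=
  ∀ a : MvPolynomial J ℝ, a.IsHomogeneous k →
    (∀ j b, j + 1 = k → b.IsHomogeneous j → φ (L ^ (n - 2 * k + 1) * (a * b)) = 0) →
    0 ≤ (-1) ^ k * φ (L ^ (n - 2 * k) * (a * a)) ∧
    (φ (L ^ (n - 2 * k) * (a * a)) = 0 → ∀ b, b.IsHomogeneous (n - k) → φ (a * b) = 0)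

/-- Hodge–Riemann relations for a functional of degree `n` -/
def HR (φ : MvPolynomial J ℝ →ₗ[ℝ] ℝ) (L : MvPolynomial J ℝ) (n : ℕ) : Prop :=
  ∀ k, 2 * k ≤ n → HRk φ L n k

/-- hard Lefschetz for a functional of degree `n` -/
def HL (φ : MvPolynomial J ℝ →ₗ[ℝ] ℝ) (L : MvPolynomial J ℝ) (n : ℕ) : Prop :=
  ∀ k, 2 * k ≤ n → ∀ a : MvPolynomial J ℝ, a.IsHomogeneous k →
    (∀ b, b.IsHomogeneous k → φ (L ^ (n - 2 * k) * (a * b)) = 0) →
    ∀ b, b.IsHomogeneous (n - k) → φ (a * b) = 0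

omit [DecidableEq J] in
/-- homogeneous polynomials of degree `k` form a finite dimensional space -/
instance finite_hs (k : ℕ) : Module.Finite ℝ (homogeneousSubmodule J ℝ k) :=
  Module.Finite.iff_fg.mpr (homogeneousSubmodule_fg _ _ _)

/-- the pairing of the degrees `k` and `l` -/
noncomputable def Hf (φ : MvPolynomial J ℝ →ₗ[ℝ] ℝ) (k l : ℕ) :
    homogeneousSubmodule J ℝ k →ₗ[ℝ] Module.Dual ℝ (homogeneousSubmodule J ℝ l) :=
  LinearMap.mk₂ ℝ (fun a b => φ (a.1 * b.1))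
    (fun a a' b => by simp [add_mul]) (fun t a b => by simp)
    (fun a b b' => by simp [mul_add]) (fun t a b => by simp)

/-- the rank in degree `k` of a functional of degree `n` -/
noncomputable def rk (φ : MvPolynomial J ℝ →ₗ[ℝ] ℝ) (n k : ℕ) : ℕ :=
  Module.finrank ℝ (LinearMap.range (Hf φ k (n - k)))

/-- the form `(a, b) ↦ φ (L^(n-2k) a b)` in degree `k` -/
noncomputable def Qf (φ : MvPolynomial J ℝ →ₗ[ℝ] ℝ) (L : MvPolynomial J ℝ) (n k : ℕ) :
    LinearMap.BilinForm ℝ (homogeneousSubmodule J ℝ k) :=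
  LinearMap.mk₂ ℝ (fun a b => φ (L ^ (n - 2 * k) * (a.1 * b.1)))
    (fun a a' b => by simp [add_mul, mul_add]) (fun t a b => by simp)
    (fun a b b' => by simp [mul_add]) (fun t a b => by simp)

/-- index of positivity of a symmetric form -/
noncomputable def ip {V : Type} [AddCommGroup V] [Module ℝ V] (B : LinearMap.BilinForm ℝ V) : ℕ :=
  sSup {m : ℕ | ∃ W : Submodule ℝ V, Module.finrank ℝ W = m ∧ ∀ w ∈ W, w ≠ 0 → 0 < B w w}

/-- the signature in degree `k` -/
noncomputable def sg (φ : MvPolynomial J ℝ →ₗ[ℝ] ℝ) (L : MvPolynomial J ℝ) (n k : ℕ) : ℤ :=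
  (ip (Qf φ L n k) : ℤ) - (ip (-(Qf φ L n k)) : ℤ)

/-- the signatures are those demanded by the Hodge–Riemann relations -/
def IDX (φ : MvPolynomial J ℝ →ₗ[ℝ] ℝ) (L : MvPolynomial J ℝ) (n : ℕ) : Prop :=
  sg φ L n 0 = (rk φ n 0 : ℤ) ∧
  ∀ k, 2 * (k + 1) ≤ n →
    sg φ L n (k + 1) - sg φ L n k = (-1) ^ (k + 1) * ((rk φ n (k + 1) : ℤ) - (rk φ n k : ℤ))

end Abstract

end Pool.Agent.Helper59.LP
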