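import Pool.Agent.Helper59.HR.Spec

/-!
# HR, part GPM: Hodge–Riemann relations in general position
-/

set_option autoImplicit false

open MvPolynomial

namespace Pool.Agent.Helper59.HR.GPM

open Pool.Agent.Helper59.LP

variable {J : Type} [Fintype J] [DecidableEq J] {d : ℕ}

theorem Fa_card {v : J → Ve d} {c : J → ℝ} {σ : Finset J} (h : σ ∈ Fa v c) :
    σ.card = d ∧ Ind v σ := by
  classical
  unfold Fa at h
  have := (Finset.mem_filter.mp h).2
  exact ⟨this.1, this.2.1⟩

theorem Sim_mono {v : J → Ve d} {c : J → ℝ} {F F' : Finset J} (h : Sim v c F) (hF : F ⊆ F') :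
    Sim v c F' := fun m h1 h2 => h m h1 (hF.trans h2)

omit [DecidableEq J] in
theorem Lf_hom (c : J → ℝ) : (Lf c).IsHomogeneous 1 := by
  unfold Lf
  refine IsHomogeneous.sum _ _ _ fun j _ => ?_
  simpa using (isHomogeneous_C J (c j)).mul (isHomogeneous_X ℝ j)

omit [DecidableEq J] in
theorem Lf_add (c u : J → ℝ) (s : ℝ) : Lf (fun j => c j + s * u j) = Lf c + C s * Lf u := by
  unfold Lf
  rw [Finset.mul_sum, ← Finset.sum_add_distrib]
  refine Finset.sum_congr rfl fun j _ => ?_
  rw [C_add, C_mul]; ring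

omit [DecidableEq J] in
theorem Lf_sub (c u : J → ℝ) (s : ℝ) : Lf (fun j => c j - s * u j) = Lf c - C s * Lf u := by
  unfold Lf
  rw [Finset.mul_sum, ← Finset.sum_sub_distrib]
  refine Finset.sum_congr rfl fun j _ => ?_
  rw [C_sub, C_mul]; ring

omit [DecidableEq J] in
theorem eval_Lf (lam c : J → ℝ) : eval lam (Lf c) = ∑ j, lam j * c j := by
  unfold Lf
  simp only [map_sum, map_mul, eval_C, eval_X]
  exact Finset.sum_congr rfl fun j _ => mul_comm _ _

theorem xm_hom (F : Finset J) : (xm F : MvPolynomial J ℝ).IsHomogeneous F.card := by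
  unfold xm
  have := IsHomogeneous.prod F (fun j => (X j : MvPolynomial J ℝ)) (fun _ => 1)
    (fun j _ => isHomogeneous_X ℝ j)
  simpa using this

theorem eval_xm (lam : J → ℝ) (F : Finset J) : eval lam (xm F) = ∏ j ∈ F, lam j := by
  unfold xm; simp

theorem fnS_congr (hNF : S_NF) {v : J → Ve d} {ξ : Ve d} {S S' : Finset (Finset J)} {F : Finset J}
    (hS : ∀ σ ∈ S, σ.card = d ∧ Ind v σ) (hS' : ∀ σ ∈ S', σ.card = d ∧ Ind v σ)
    (h : ∀ σ, F ⊆ σ → (σ ∈ S ↔ σ ∈ S')) : fnS v ξ S F = fnS v ξ S' F := by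
  apply LinearMap.ext
  intro f
  rw [(hNF J d v ξ S F hS).1 f, (hNF J d v ξ S' F hS').1 f]
  have : (S.filter fun σ => F ⊆ σ) = S'.filter fun σ => F ⊆ σ := by
    ext σ
    simp only [Finset.mem_filter]
    constructor
    · rintro ⟨h1, h2⟩; exact ⟨(h σ h2).mp h1, h2⟩
    · rintro ⟨h1, h2⟩; exact ⟨(h σ h2).mpr h1, h2⟩
  rw [this]

/-- no change along a segment on which hard Lefschetz holds -/
theorem seg (hEQV : S_EQV) (hSTAY : S_STAY) (φ : MvPolynomial J ℝ →ₗ[ℝ] ℝ)
    (L U : MvPolynomial J ℝ) (n : ℕ) (a b : ℝ) (hL : L.IsHomogeneous 1) (hU : U.IsHomogeneous 1)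
    (h : ∀ s ∈ Set.uIcc a b, HL φ (L + C s * U) n) :
    HR φ (L + C a * U) n ↔ HR φ (L + C b * U) n := by
  have hom : ∀ s : ℝ, (L + C s * U).IsHomogeneous 1 := fun s => by
    refine hL.add ?_
    simpa using (isHomogeneous_C J s).mul hU
  rw [hEQV J φ _ n (hom a) (h a Set.left_mem_uIcc), hEQV J φ _ n (hom b) (h b Set.right_mem_uIcc)]
  rcases le_total a b with hab | hab
  · exact hSTAY J φ L U n a b hL hU hab (by rwa [Set.uIcc_of_le hab] at h)
  · exact (hSTAY J φ L U n b a hL hU hab (by rwa [Set.uIcc_of_ge hab] at h)).symm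

/-- sums over the facets at a crossing -/
theorem dgS_union (v : J → Ve d) (ξ : Ve d) (G : Finset (Finset J)) (Z : Finset J) (P : Finset J)
    (hG : ∀ σ ∈ G, ¬ σ ⊆ Z) (hP : P ⊆ Z) (f : MvPolynomial J ℝ) :
    dgS v ξ (G ∪ P.image Z.erase) f = dgS v ξ G f + ∑ i ∈ P, tm v ξ (Z.erase i) f := by
  unfold dgS
  rw [Finset.sum_union]
  · rw [LinearMap.add_apply, Finset.sum_image]
    · simp [LinearMap.sum_apply]
    · intro i hi j hj hij
      have hi' := hP hi
      by_contra hne
      have : i ∈ Z.erase j := Finset.mem_erase.mpr ⟨hne, hi'⟩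
      rw [← hij] at this
      exact (Finset.notMem_erase i Z) this
  · rw [Finset.disjoint_left]
    intro σ hσ hσ'
    obtain ⟨i, _, rfl⟩ := Finset.mem_image.mp hσ'
    exact hG _ hσ (Finset.erase_subset _ _)

theorem rel_dt {v : J → Ve d} {Z : Finset J} {lam : J → ℝ} (hC : Circ v Z lam) (m : Ve d) :
    ∑ j, lam j * dt m (v j) = 0 := by
  have h1 : ∑ j, lam j * dt m (v j) = dt m (∑ j, lam j • v j) := by
    unfold dt
    simp only [Finset.sum_apply, Pi.smul_apply, smul_eq_mul, Finset.mul_sum]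
    rw [Finset.sum_comm]
    refine Finset.sum_congr rfl fun k _ => Finset.sum_congr rfl fun j _ => ?_
    ring
  rw [h1, hC.rel]
  simp [dt]

/-- the sign of a product -/
theorem sign_prod (A : Finset J) (lam : J → ℝ) (h : ∀ j ∈ A, lam j ≠ 0) :
    0 < (-1) ^ (A.filter fun j => lam j < 0).card * ∏ j ∈ A, lam j := by
  induction A using Finset.induction_on with
  | empty => simp
  | insert a A ha ih =>
    have ih' := ih fun j hj => h j (Finset.mem_insert_of_mem hj)
    have hne := h a (Finset.mem_insert_self a A)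
    rw [Finset.prod_insert ha, Finset.filter_insert]
    split_ifs with hlt
    · rw [Finset.card_insert_of_notMem (by simp [ha]), pow_succ]
      nlinarith
    · have : 0 < lam a := lt_of_le_of_ne (not_lt.mp hlt) (Ne.symm hne)
      have := mul_pos this ih'
      linarith [this]

/-- the parts which are used -/
structure Hy : Prop where
  CF : S_CF
  CRU : S_CRU
  DIV : S_DIV
  STAB : S_STAB
  SWAP : S_SWAP
  GEN : S_GEN
  EMP : S_EMP
  NF : S_NF
  PATH : S_PATH
  VANG : S_VANG
  HLG : S_HLG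
  HLW : S_HLW
  EQV : S_EQV
  STAY : S_STAY
  CRS : S_CRS

section Step

variable {v : J → Ve d} {ξ : Ve d} {n : ℕ}

theorem HLstep (H : Hy) (hPS : PS v) (hGP : GP v) (hGX : GX v ξ) {c : J → ℝ} {F : Finset J}
    (hS : Sim v c F) (hc : F.card + (n + 1) = d)
    (ih : ∀ (c : J → ℝ) (F : Finset J), Sim v c F → F.card + n = d →
      HR (fn v ξ c F) (Lf c) n) : HL (fn v ξ c F) (Lf c) (n + 1) := by
  refine H.HLG J d v ξ c F (n + 1) hPS hS hc (H.VANG J d v ξ c F (n + 1) hPS hGP hGX hS hc) ?_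
  intro j hj k hk
  have hkn : k = n := by omega
  subst hkn
  have hS' := Sim_mono hS (Finset.subset_insert j F)
  have hc' : (insert j F).card + k = d := by
    rw [Finset.card_insert_of_notMem hj]; omega
  exact ⟨H.VANG J d v ξ c _ k hPS hGP hGX hS' hc', ih _ _ hS' hc'⟩

theorem regular (H : Hy) (hPS : PS v) (hGP : GP v) (hGX : GX v ξ) {c u : J → ℝ}
    {F : Finset J} (t : ℝ) (hS : Sim v (fun j => c j - t * u j) F) (hc : F.card + (n + 1) = d)
    (ih : ∀ (c : J → ℝ) (F : Finset J), Sim v c F → F.card + n = d →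
      HR (fn v ξ c F) (Lf c) n) :
    ∃ ε > 0, ∀ s, |s - t| < ε →
      (HR (fn v ξ (fun j => c j - s * u j) F) (Lf fun j => c j - s * u j) (n + 1) ↔
        HR (fn v ξ (fun j => c j - t * u j) F) (Lf fun j => c j - t * u j) (n + 1)) := by
  obtain ⟨ε, hε, h⟩ := H.STAB J d v (fun j => c j - t * u j) (fun j => -(u j)) F hPS hS
  refine ⟨ε, hε, fun s hs => ?_⟩
  have e1 : ∀ r : ℝ, (fun j => (c j - t * u j) + (r - t) * -(u j)) = fun j => c j - r * u j := by
    intro r; funext j; ring
  have hfn : ∀ r, |r| < ε → fn v ξ (fun j => (c j - t * u j) + r * -(u j)) F =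
      fn v ξ (fun j => c j - t * u j) F := by
    intro r hr
    unfold fn
    exact fnS_congr H.NF (fun σ h => Fa_card h) (fun σ h => Fa_card h) (h r hr).2
  have hHL : ∀ r, |r| < ε → HL (fn v ξ (fun j => c j - t * u j) F)
      (Lf (fun j => c j - t * u j) + C r * Lf (fun j => -(u j))) (n + 1) := by
    intro r hr
    rw [← hfn r hr, ← Lf_add]
    exact HLstep H hPS hGP hGX (h r hr).1 hc ih
  have key := seg H.EQV H.STAY (fn v ξ (fun j => c j - t * u j) F) (Lf fun j => c j - t * u j)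
    (Lf fun j => -(u j)) (n + 1) (s - t) 0 (Lf_hom _) (Lf_hom _) (by
      intro r hr
      apply hHL
      rcases le_total (s - t) 0 with h0 | h0
      · rw [Set.uIcc_of_le h0] at hr
        rw [abs_of_nonpos h0] at hs
        rw [abs_of_nonpos hr.2]
        linarith [hr.1]
      · rw [Set.uIcc_of_ge h0] at hr
        rw [abs_of_nonneg h0] at hs
        rw [abs_of_nonneg hr.1]
        linarith [hr.2])
  rw [← Lf_add, e1 s, C_0, zero_mul, add_zero] at key
  have h2 := hfn (s - t) hs
  rw [e1 s] at h2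
  rw [h2]
  exact key

theorem cross (H : Hy) (hPS : PS v) (hGP : GP v) (hGX : GX v ξ) {c w : J → ℝ}
    {F Z : Finset J} {lam : J → ℝ} {x₀ : Ve d} (hC : Circ v Z lam) (hw : 0 < ∑ j, lam j * w j)
    (hfe : Fe v c x₀) (hac : ac v c x₀ = Z)
    (huniq : ∀ m, Fe v c m → ¬ Ind v (ac v c m) → m = x₀) (hFZ : F ⊆ Z)
    (hBA : (pz Z (-lam) \ F).card ≤ (pz Z lam \ F).card) (hc : F.card + (n + 1) = d)
    (ih : ∀ (c : J → ℝ) (F : Finset J), Sim v c F → F.card + n = d →
      HR (fn v ξ c F) (Lf c) n) :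
    ∃ ε > 0, ∀ s s', 0 < s → s < ε → 0 < s' → s' < ε →
      (HR (fn v ξ (fun j => c j + s * w j) F) (Lf fun j => c j + s * w j) (n + 1) ↔
        HR (fn v ξ (fun j => c j - s' * w j) F) (Lf fun j => c j - s' * w j) (n + 1)) := by
  classical
  obtain ⟨ε, G, hε, hG1, hG2, hsw⟩ := H.SWAP J d v c w Z lam x₀ hPS hGP hC hw hfe hac huniq
  refine ⟨ε, hε, ?_⟩
  have hpz : pz Z lam ⊆ Z := Finset.filter_subset _ _
  have hpz' : pz Z (-lam) ⊆ Z := Finset.filter_subset _ _
  set Sp := G ∪ (pz Z lam).image Z.erase with hSp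
  set Sm := G ∪ (pz Z (-lam)).image Z.erase with hSm
  have hGmem : ∀ σ ∈ G, σ ∈ Fa v c := fun σ hσ => (hG2 σ (hG1 σ hσ)).mp hσ
  have hmid : 0 < ε / 2 ∧ ε / 2 < ε := ⟨by linarith, by linarith⟩
  have hSpc : ∀ σ ∈ Sp, σ.card = d ∧ Ind v σ := by
    intro σ hσ
    rw [← (hsw (ε / 2) hmid.1 hmid.2).2.2.1] at hσ
    exact Fa_card hσ
  have hSmc : ∀ σ ∈ Sm, σ.card = d ∧ Ind v σ := by
    intro σ hσ
    rw [← (hsw (ε / 2) hmid.1 hmid.2).2.2.2] at hσ
    exact Fa_card hσ
  have hcZ : ∑ j, lam j * c j = 0 := by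
    rw [← rel_dt hC x₀]
    refine Finset.sum_congr rfl fun j _ => ?_
    by_cases hj : j ∈ Z
    · have : dt x₀ (v j) = c j := by
        rw [← hac] at hj
        unfold ac at hj
        exact (Finset.mem_filter.mp hj).2
      rw [this]
    · have : lam j = 0 := by
        by_contra h; exact hj ((hC.supp j).mp h)
      rw [this]; ring
  -- every facet misses an element of the nonface
  have hmissm : ∀ σ ∈ Sm, ∃ i, lam i < 0 ∧ i ∉ σ := by
    intro σ hσ
    rw [← (hsw (ε / 2) hmid.1 hmid.2).2.2.2] at hσ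
    unfold Fa at hσ
    obtain ⟨-, -, -, m, hm, hma⟩ := Finset.mem_filter.mp hσ
    by_contra hcon
    push Not at hcon
    have h1 : 0 ≤ ∑ j, lam j * (c j - ε / 2 * w j - dt m (v j)) := by
      refine Finset.sum_nonneg fun j _ => ?_
      rcases lt_trichotomy (lam j) 0 with h | h | h
      · have hj := hcon j h
        rw [← hma] at hj
        unfold ac at hj
        have := (Finset.mem_filter.mp hj).2
        rw [this]; simp
      · rw [h]; simp
      · exact mul_nonneg h.le (by linarith [hm j])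
    have h2 : ∑ j, lam j * (c j - ε / 2 * w j - dt m (v j)) = - (ε / 2 * ∑ j, lam j * w j) := by
      have e1 : ∀ j, lam j * (c j - ε / 2 * w j - dt m (v j)) =
          lam j * c j - ε / 2 * (lam j * w j) - lam j * dt m (v j) := fun j => by ring
      rw [Finset.sum_congr rfl fun j _ => e1 j, Finset.sum_sub_distrib, Finset.sum_sub_distrib,
        hcZ, rel_dt hC m, ← Finset.mul_sum]
      ring
    rw [h2] at h1
    have := mul_pos hmid.1 hw
    linarith
  have hmissp : ∀ σ ∈ Sp, ∃ i, 0 < lam i ∧ i ∉ σ := by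
    intro σ hσ
    rw [← (hsw (ε / 2) hmid.1 hmid.2).2.2.1] at hσ
    unfold Fa at hσ
    obtain ⟨-, -, -, m, hm, hma⟩ := Finset.mem_filter.mp hσ
    by_contra hcon
    push Not at hcon
    have h1 : ∑ j, lam j * (c j + ε / 2 * w j - dt m (v j)) ≤ 0 := by
      refine Finset.sum_nonpos fun j _ => ?_
      rcases lt_trichotomy (lam j) 0 with h | h | h
      · exact mul_nonpos_of_nonpos_of_nonneg h.le (by linarith [hm j])
      · rw [h]; simp
      · have hj := hcon j h
        rw [← hma] at hj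
        unfold ac at hj
        have := (Finset.mem_filter.mp hj).2
        rw [this]; simp
    have h2 : ∑ j, lam j * (c j + ε / 2 * w j - dt m (v j)) = ε / 2 * ∑ j, lam j * w j := by
      have e1 : ∀ j, lam j * (c j + ε / 2 * w j - dt m (v j)) =
          lam j * c j + ε / 2 * (lam j * w j) - lam j * dt m (v j) := fun j => by ring
      rw [Finset.sum_congr rfl fun j _ => e1 j, Finset.sum_sub_distrib, Finset.sum_add_distrib,
        hcZ, rel_dt hC m, ← Finset.mul_sum]
      ring
    rw [h2] at h1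
    have := mul_pos hmid.1 hw
    linarith
  set κ : ℝ := (∏ j ∈ Z, lam j)⁻¹ * ∏ j ∈ F, lam j with hκ
  have hlamZ : ∀ j ∈ Z, lam j ≠ 0 := fun j hj => (hC.supp j).mpr hj
  -- the difference of the two functionals
  have hdiff : ∀ f, f.IsHomogeneous (n + 1) →
      fnS v ξ Sp F f = fnS v ξ Sm F f + κ * eval lam f := by
    intro f hf
    have h1 := H.DIV J d v ξ hGP hGX Z lam hC d (xm F * f) le_rfl (by
      have := (xm_hom F).mul hf
      rwa [hc] at this)
    rw [if_pos rfl, map_mul, eval_xm] at h1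
    show dgS v ξ Sp (xm F * f) = dgS v ξ Sm (xm F * f) + _
    rw [hSp, hSm, dgS_union v ξ G Z _ hG1 hpz, dgS_union v ξ G Z _ hG1 hpz']
    rw [hκ]
    linarith
  -- sign and cardinalities
  have hAB : Z \ F = (pz Z lam \ F) ∪ (pz Z (-lam) \ F) := by
    ext j
    simp only [pz, Finset.mem_sdiff, Finset.mem_union, Finset.mem_filter, Pi.neg_apply,
      Left.neg_pos_iff]
    constructor
    · rintro ⟨h1, h2⟩
      rcases lt_or_gt_of_ne (hlamZ j h1) with h | h
      · exact Or.inr ⟨⟨h1, h⟩, h2⟩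
      · exact Or.inl ⟨⟨h1, h⟩, h2⟩
    · rintro (⟨⟨h1, _⟩, h2⟩ | ⟨⟨h1, _⟩, h2⟩) <;> exact ⟨h1, h2⟩
  have hABd : Disjoint (pz Z lam \ F) (pz Z (-lam) \ F) := by
    rw [Finset.disjoint_left]
    intro j h1 h2
    simp only [pz, Finset.mem_sdiff, Finset.mem_filter, Pi.neg_apply, Left.neg_pos_iff] at h1 h2
    linarith [h1.1.2, h2.1.2]
  have hABc : (pz Z lam \ F).card + (pz Z (-lam) \ F).card = n + 1 + 1 := by
    rw [← Finset.card_union_of_disjoint hABd, ← hAB, Finset.card_sdiff_of_subset hFZ, hC.card]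
    omega
  have hsgn : 0 < (-1 : ℝ) ^ (pz Z (-lam) \ F).card * κ := by
    have h1 := sign_prod (Z \ F) lam fun j hj => hlamZ j (Finset.mem_sdiff.mp hj).1
    have h2 : ((Z \ F).filter fun j => lam j < 0) = pz Z (-lam) \ F := by
      ext j
      simp only [pz, Finset.mem_sdiff, Finset.mem_filter, Pi.neg_apply, Left.neg_pos_iff]
      tauto
    rw [h2] at h1
    have h3 : κ = (∏ j ∈ Z \ F, lam j)⁻¹ := by
      rw [hκ, ← Finset.prod_sdiff hFZ, mul_inv, mul_assoc, inv_mul_cancel₀, mul_one]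
      exact Finset.prod_ne_zero_iff.mpr fun j hj => hlamZ j (hFZ hj)
    rw [h3]
    have h4 : (∏ j ∈ Z \ F, lam j) ≠ 0 :=
      Finset.prod_ne_zero_iff.mpr fun j hj => hlamZ j (Finset.mem_sdiff.mp hj).1
    have h5 : (-1 : ℝ) ^ (pz Z (-lam) \ F).card * (∏ j ∈ Z \ F, lam j)⁻¹ =
        ((-1 : ℝ) ^ (pz Z (-lam) \ F).card * ∏ j ∈ Z \ F, lam j) *
          ((∏ j ∈ Z \ F, lam j)⁻¹) ^ 2 := by
      field_simp
    rw [h5]
    positivity
  -- hard Lefschetz at the wall
  have hHLW : HL (fnS v ξ Sm F) (Lf c) (n + 1) := by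
    refine H.HLW J d v ξ c Z F lam x₀ (n + 1) Sm hGP hC hfe hac hFZ hc (fun σ hσ => (hSmc σ hσ).1)
      hmissm ?_ ?_ ?_
    · rw [hAB, Finset.card_union_of_disjoint hABd]; omega
    · have := H.VANG J d v ξ (fun j => c j - ε / 2 * w j) F (n + 1) hPS hGP hGX
        (Sim_mono (hsw _ hmid.1 hmid.2).2.1 (Finset.empty_subset F)) hc
      unfold fn at this
      rwa [(hsw _ hmid.1 hmid.2).2.2.2] at this
    · intro j hj k hk
      have hkn : k = n := by omega
      subst hkn
      have hjF : j ∉ F := fun h => hj (hFZ h)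
      have hS' : Sim v c (insert j F) := by
        intro m h1 h2
        by_contra hcon
        have := huniq m h1 hcon
        subst this
        rw [hac] at h2
        exact hj (h2 (Finset.mem_insert_self j F))
      have hc' : (insert j F).card + k = d := by
        rw [Finset.card_insert_of_notMem hjF]; omega
      have e1 : fnS v ξ Sm (insert j F) = fn v ξ c (insert j F) := by
        unfold fn
        refine fnS_congr H.NF hSmc (fun σ h => Fa_card h) fun σ hσ => ?_
        have hnot : ¬ σ ⊆ Z := fun h => hj (h (hσ (Finset.mem_insert_self j F)))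
        rw [← hG2 σ hnot, hSm, Finset.mem_union]
        constructor
        · rintro (h | h)
          · exact h
          · obtain ⟨i, _, rfl⟩ := Finset.mem_image.mp h
            exact absurd (Finset.erase_subset _ _) hnot
        · exact Or.inl
      rw [e1]
      exact ⟨H.VANG J d v ξ c _ k hPS hGP hGX hS' hc', ih _ _ hS' hc'⟩
  have hHLp : ∀ s, 0 < s → s < ε → HL (fnS v ξ Sp F) (Lf c + C s * Lf w) (n + 1) := by
    intro s h1 h2
    have := HLstep H hPS hGP hGX (Sim_mono (hsw s h1 h2).1 (Finset.empty_subset F)) hc ih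
    unfold fn at this
    rwa [(hsw s h1 h2).2.2.1, Lf_add] at this
  have hHLm : ∀ s, 0 < s → s < ε → HL (fnS v ξ Sm F) (Lf c - C s * Lf w) (n + 1) := by
    intro s h1 h2
    have := HLstep H hPS hGP hGX (Sim_mono (hsw s h1 h2).2.1 (Finset.empty_subset F)) hc ih
    unfold fn at this
    rwa [(hsw s h1 h2).2.2.2, Lf_sub] at this
  have hnonm : ∀ f k, (pz Z (-lam) \ F).card + k = n + 1 → f.IsHomogeneous k →
      fnS v ξ Sm F (xm (pz Z (-lam) \ F) * f) = 0 := by
    intro f k _ _
    refine (H.NF J d v ξ Sm F hSmc).2.1 _ ?_ f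
    intro σ hσ hsub
    obtain ⟨i, hi, hiσ⟩ := hmissm σ hσ
    apply hiσ
    apply hsub
    rw [Finset.mem_union]
    by_cases hiF : i ∈ F
    · exact Or.inl hiF
    · refine Or.inr (Finset.mem_sdiff.mpr ⟨?_, hiF⟩)
      unfold pz
      rw [Finset.mem_filter]
      exact ⟨(hC.supp i).mp hi.ne, by simpa using hi⟩
  have hnonp : ∀ f k, (pz Z lam \ F).card + k = n + 1 → f.IsHomogeneous k →
      fnS v ξ Sp F (xm (pz Z lam \ F) * f) = 0 := by
    intro f k _ _
    refine (H.NF J d v ξ Sp F hSpc).2.1 _ ?_ f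
    intro σ hσ hsub
    obtain ⟨i, hi, hiσ⟩ := hmissp σ hσ
    apply hiσ
    apply hsub
    rw [Finset.mem_union]
    by_cases hiF : i ∈ F
    · exact Or.inl hiF
    · refine Or.inr (Finset.mem_sdiff.mpr ⟨?_, hiF⟩)
      unfold pz
      rw [Finset.mem_filter]
      exact ⟨(hC.supp i).mp hi.ne', hi⟩
  have hevL : eval lam (Lf c) = 0 := by rw [eval_Lf]; exact hcZ
  have hevU : 0 < eval lam (Lf w) := by rw [eval_Lf]; exact hw
  intro s s' hs1 hs2 hs1' hs2'
  have key := H.CRS J (fnS v ξ Sm F) (fnS v ξ Sp F) (n + 1) lam κ (pz Z lam \ F)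
    (pz Z (-lam) \ F) (Lf c) (Lf w) ε hsgn hABc hBA
    (fun j hj => hlamZ j (hpz (Finset.mem_sdiff.mp hj).1))
    (fun j hj => hlamZ j (hpz' (Finset.mem_sdiff.mp hj).1)) hdiff hnonm hnonp (Lf_hom _)
    (Lf_hom _) hevL hevU hε hHLp hHLm hHLW s s' hs1 hs2 hs1' hs2'
  have hom1 : (Lf c + C s * Lf w).IsHomogeneous 1 := by rw [← Lf_add]; exact Lf_hom _
  have hom2 : (Lf c - C s' * Lf w).IsHomogeneous 1 := by rw [← Lf_sub]; exact Lf_hom _
  unfold fn
  rw [(hsw s hs1 hs2).2.2.1, (hsw s' hs1' hs2').2.2.2, Lf_add, Lf_sub,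
    H.EQV J _ _ (n + 1) hom1 (hHLp s hs1 hs2), H.EQV J _ _ (n + 1) hom2 (hHLm s' hs1' hs2')]
  exact key

/-- no facets: nothing to prove -/
theorem trivial_of_empty {c : J → ℝ} {F : Finset J} (h : ∀ m, ¬ Fe v c m) (L : MvPolynomial J ℝ)
    (k : ℕ) : HR (fn v ξ c F) L k := by
  classical
  have h0 : Fa v c = ∅ := by
    apply Finset.eq_empty_iff_forall_notMem.mpr
    intro σ hσ
    unfold Fa at hσ
    obtain ⟨-, -, -, m, hm, -⟩ := Finset.mem_filter.mp hσ
    exact h m hm
  have h1 : ∀ f, fn v ξ c F f = 0 := by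
    intro f
    unfold fn fnS dgS
    rw [h0]; simp
  intro i _ a _ _
  simp [h1]

theorem Circ_neg {Z : Finset J} {lam : J → ℝ} (h : Circ v Z lam) : Circ v Z (-lam) where
  card := h.card
  supp j := by rw [← h.supp j]; simp
  rel := by
    have := h.rel
    simp only [Pi.neg_apply, neg_smul, Finset.sum_neg_distrib, this, neg_zero]
  nrm i hi := by rw [h.nrm i hi]; simp

theorem zero_case (H : Hy) (hGX : GX v ξ) {c : J → ℝ} {F : Finset J} (hc : F.card = d) :
    HR (fn v ξ c F) (Lf c) 0 := by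
  classical
  have h1 : 0 ≤ fn v ξ c F 1 := by
    unfold fn
    rw [(H.NF J d v ξ (Fa v c) F fun σ h => Fa_card h).1 1]
    show 0 ≤ dgS v ξ _ (xm F * 1)
    unfold dgS
    rw [LinearMap.sum_apply]
    refine Finset.sum_nonneg fun σ hσ => ?_
    obtain ⟨hσ1, hσ2⟩ := Finset.mem_filter.mp hσ
    obtain ⟨h3, h4⟩ := Fa_card hσ1
    have e1 : F = σ := Finset.eq_of_subset_of_card_le hσ2 (by omega)
    subst e1
    have hne : (∏ j ∈ F, cf v ξ F j) ≠ 0 :=
      Finset.prod_ne_zero_iff.mpr fun j hj => hGX F h3 h4 j hj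
    have hdv := (H.CF J d v ξ F h3 h4).2.2.1
    unfold tm xm
    simp only [mul_one, LinearMap.smul_apply, AlgHom.toLinearMap_apply, map_prod, aeval_X,
      smul_eq_mul]
    rw [mul_inv, mul_assoc, inv_mul_cancel₀ hne, mul_one]
    exact (inv_pos.mpr hdv).le
  intro k hk a ha _
  have hk0 : k = 0 := by omega
  subst hk0
  obtain ⟨t, rfl⟩ : ∃ t : ℝ, a = C t := ⟨a.coeff 0, by
    rw [← totalDegree_eq_zero_iff_eq_C]
    exact Nat.le_zero.mp ha.totalDegree_le⟩
  have e1 : fn v ξ c F (Lf c ^ (0 - 2 * 0) * (C t * C t)) = t * t * fn v ξ c F 1 := by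
    have : (Lf c ^ (0 - 2 * 0) * (C t * C t) : MvPolynomial J ℝ) = (t * t) • 1 := by
      rw [smul_eq_C_mul]; simp
    rw [this, map_smul, smul_eq_mul]
  rw [e1]
  refine ⟨by simpa using mul_nonneg (mul_self_nonneg t) h1, fun h b hb => ?_⟩
  obtain ⟨r, rfl⟩ : ∃ r : ℝ, b = C r := ⟨b.coeff 0, by
    rw [← totalDegree_eq_zero_iff_eq_C]
    exact Nat.le_zero.mp hb.totalDegree_le⟩
  have e2 : (C t * C r : MvPolynomial J ℝ) = (t * r) • 1 := by
    rw [smul_eq_C_mul]; simp
  rw [e2, map_smul, smul_eq_mul]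
  rcases mul_eq_zero.mp h with h | h
  · rw [mul_self_eq_zero.mp h]; simp
  · rw [h]; simp

theorem gpm_aux (H : Hy) (hPS : PS v) (hGP : GP v) (hGX : GX v ξ) :
    ∀ (n : ℕ) (c : J → ℝ) (F : Finset J), Sim v c F → F.card + n = d →
      HR (fn v ξ c F) (Lf c) n := by
  intro n
  induction n with
  | zero => exact fun c F _ hc => zero_case H hGX (by omega)
  | succ n ih =>
    intro c F hS hc
    obtain ⟨u, T, hu, hT1, hT2⟩ := H.GEN J d v c hGP
    have key := H.PATH
      (fun s => HR (fn v ξ (fun j => c j - s * u j) F) (Lf fun j => c j - s * u j) (n + 1)) T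
      (by
        obtain ⟨S, hS'⟩ := H.EMP J d v c u (by omega) hPS hu
        exact ⟨S, fun s hs => trivial_of_empty (hS' s hs) _ _⟩)
      (by
        intro t ht htT
        have hSt : Sim v (fun j => c j - t * u j) F := by
          rcases eq_or_lt_of_le ht with h | h
          · rw [← h]; simpa using hS
          · exact Sim_mono (hT1 t h htT) (Finset.empty_subset F)
        obtain ⟨ε, hε, h⟩ := regular H hPS hGP hGX t hSt hc ih
        exact ⟨ε, hε, fun s _ hs => h s hs⟩)
      (by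
        intro t htT ht0
        have hreg : Sim v (fun j => c j - t * u j) F → ∃ ε > 0, ∀ s s', t - ε < s → s < t →
            t < s' → s' < t + ε →
            (HR (fn v ξ (fun j => c j - s * u j) F) (Lf fun j => c j - s * u j) (n + 1) ↔
              HR (fn v ξ (fun j => c j - s' * u j) F) (Lf fun j => c j - s' * u j) (n + 1)) := by
          intro hSt
          obtain ⟨ε, hε, h⟩ := regular H hPS hGP hGX t hSt hc ih
          refine ⟨ε, hε, fun s s' h1 h2 h3 h4 => ?_⟩
          rw [h s (by rw [abs_of_neg (by linarith)]; linarith),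
            h s' (by rw [abs_of_pos (by linarith)]; linarith)]
        rcases (hT2 t htT).2 with h | ⟨x₀, Z, lam, hC, hne, hfe, hac, huniq⟩
        · exact hreg fun m h1 _ => h m h1
        by_cases hFZ : F ⊆ Z
        swap
        · apply hreg
          intro m h1 h2
          by_contra hcon
          have := huniq m h1 hcon
          subst this
          rw [hac] at h2
          exact hFZ h2
        -- the crossing
        have main : ∀ (lam' : J → ℝ), Circ v Z lam' → 0 < ∑ j, lam' j * u j →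
            ∃ ε > 0, ∀ s s', t - ε < s → s < t → t < s' → s' < t + ε →
            (HR (fn v ξ (fun j => c j - s * u j) F) (Lf fun j => c j - s * u j) (n + 1) ↔
              HR (fn v ξ (fun j => c j - s' * u j) F) (Lf fun j => c j - s' * u j) (n + 1)) := by
          intro lam' hC' hpos
          rcases le_total (pz Z (-lam') \ F).card (pz Z lam' \ F).card with hle | hle
          · obtain ⟨ε, hε, h⟩ := cross H hPS hGP hGX hC' hpos hfe hac huniq hFZ hle hc ih
            refine ⟨ε, hε, fun s s' h1 h2 h3 h4 => ?_⟩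
            have h5 := h (t - s) (s' - t) (by linarith) (by linarith) (by linarith) (by linarith)
            have e1 : (fun j => c j - t * u j + (t - s) * u j) = fun j => c j - s * u j := by
              funext j; ring
            have e2 : (fun j => c j - t * u j - (s' - t) * u j) = fun j => c j - s' * u j := by
              funext j; ring
            rwa [e1, e2] at h5
          · have hpos' : 0 < ∑ j, (-lam') j * (fun j => -(u j)) j := by
              simpa using hpos
            obtain ⟨ε, hε, h⟩ := cross H hPS hGP hGX (w := fun j => -(u j)) (Circ_neg hC') hpos'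
              hfe hac huniq hFZ (by rwa [neg_neg]) hc ih
            refine ⟨ε, hε, fun s s' h1 h2 h3 h4 => ?_⟩
            have h5 := h (s' - t) (t - s) (by linarith) (by linarith) (by linarith) (by linarith)
            have e1 : (fun j => c j - t * u j + (s' - t) * -(u j)) = fun j => c j - s' * u j := by
              funext j; ring
            have e2 : (fun j => c j - t * u j - (t - s) * -(u j)) = fun j => c j - s * u j := by
              funext j; ring
            rw [e1, e2] at h5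
            exact h5.symm
        rcases lt_or_gt_of_ne hne with h | h
        · exact main (-lam) (Circ_neg hC) (by simpa using h)
        · exact main lam hC h)
    have h0 : (0 : ℝ) ∉ T := fun h => lt_irrefl _ (hT2 0 h).1
    simpa using key 0 le_rfl h0

end Step

theorem main (h1 : S_CF) (h2 : S_CRU) (h3 : S_DIV) (h4 : S_STAB) (h5 : S_SWAP) (h6 : S_GEN)
    (h7 : S_EMP) (h8 : S_NF) (h9 : S_PATH) (h10 : S_VANG) (h11 : S_HLG) (h12 : S_HLW)
    (h13 : S_EQV) (h14 : S_STAY) (h15 : S_CRS) : S_GPM := by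
  intro J _ _ d v ξ n c F hPS hGP hGX hS hc
  exact gpm_aux ⟨h1, h2, h3, h4, h5, h6, h7, h8, h9, h10, h11, h12, h13, h14, h15⟩ hPS hGP hGX
    n c F hS hc

end Pool.Agent.Helper59.HR.GPM
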