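import Pool.Agent.Helper59.HR.Defs

/-!
# HR: statements of the parts
-/

set_option autoImplicit false

open MvPolynomial

namespace Pool.Agent.Helper59.LP

/-! ## LA: linear algebra (helper14) -/

/-- rank = index of positivity + index of negativity -/
def S_LA1 : Prop := ∀ (V : Type) [AddCommGroup V] [Module ℝ V] [Module.Finite ℝ V]
  (B : LinearMap.BilinForm ℝ V), (∀ x y, B x y = B y x) →
  ip B + ip (-B) = Module.finrank ℝ (LinearMap.range B)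

/-- constant rank gives constant index -/
def S_LA2 : Prop := ∀ (V : Type) [AddCommGroup V] [Module ℝ V] [Module.Finite ℝ V]
  (B : ℝ → LinearMap.BilinForm ℝ V) (a b : ℝ) (r : ℕ), a ≤ b → (∀ t x y, B t x y = B t y x) →
  (∀ x y, Continuous fun t => B t x y) →
  (∀ t ∈ Set.Icc a b, Module.finrank ℝ (LinearMap.range (B t)) = r) →
  ip (B a) = ip (B b) ∧ ip (-(B a)) = ip (-(B b))

/-- semicontinuity -/
def S_LA3 : Prop := ∀ (V : Type) [AddCommGroup V] [Module ℝ V] [Module.Finite ℝ V]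
  (B : ℝ → LinearMap.BilinForm ℝ V) (t₀ : ℝ), (∀ t x y, B t x y = B t y x) →
  (∀ x y, Continuous fun t => B t x y) →
  ∃ δ > 0, ∀ t, |t - t₀| < δ → ip (B t₀) ≤ ip (B t) ∧ ip (-(B t₀)) ≤ ip (-(B t)) ∧
    Module.finrank ℝ (LinearMap.range (B t₀)) ≤ Module.finrank ℝ (LinearMap.range (B t))

/-- rank one perturbation which increases the rank -/
def S_LA4 : Prop := ∀ (V : Type) [AddCommGroup V] [Module ℝ V] [Module.Finite ℝ V]
  (B B' : LinearMap.BilinForm ℝ V) (u : Module.Dual ℝ V) (e : ℝ), (∀ x y, B x y = B y x) →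
  (∀ x y, B' x y = B x y + e * u x * u y) →
  Module.finrank ℝ (LinearMap.range B') = Module.finrank ℝ (LinearMap.range B) + 1 →
  (0 < e → ip B' = ip B + 1 ∧ ip (-B') = ip (-B)) ∧
  (e < 0 → ip B' = ip B ∧ ip (-B') = ip (-B) + 1)

/-- orthogonal splitting: `f : U → V` isometric for `B₀`, `B`, the rank of `B` is the rank of `B₀` plus
the rank of `B` on the orthogonal space of the image -/
def S_LA5 : Prop := ∀ (U V : Type) [AddCommGroup U] [Module ℝ U] [Module.Finite ℝ U]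
  [AddCommGroup V] [Module ℝ V] [Module.Finite ℝ V] (B₀ : LinearMap.BilinForm ℝ U)
  (B : LinearMap.BilinForm ℝ V) (f : U →ₗ[ℝ] V) (W : Submodule ℝ V),
  (∀ x y, B x y = B y x) → (∀ x y, B (f x) (f y) = B₀ x y) →
  (∀ x, (∀ y, B₀ x y = 0) → ∀ z, B (f x) z = 0) → (∀ y, y ∈ W ↔ ∀ x, B (f x) y = 0) →
  ip B = ip B₀ + ip (B.restrict W) ∧ ip (-B) = ip (-B₀) + ip (-(B.restrict W)) ∧
  Module.finrank ℝ (LinearMap.range B) =
    Module.finrank ℝ (LinearMap.range B₀) + Module.finrank ℝ (LinearMap.range (B.restrict W))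

/-! ## Abstract algebra: no geometry -/

/-- EQV: under hard Lefschetz, Hodge–Riemann is a statement on the signatures -/
def S_EQV : Prop := ∀ (J : Type) [Fintype J] [DecidableEq J] (φ : MvPolynomial J ℝ →ₗ[ℝ] ℝ)
  (L : MvPolynomial J ℝ) (n : ℕ), L.IsHomogeneous 1 → HL φ L n → (HR φ L n ↔ IDX φ L n)

/-- RKQ: under hard Lefschetz the rank of the form is the rank of the pairing -/
def S_RKQ : Prop := ∀ (J : Type) [Fintype J] [DecidableEq J] (φ : MvPolynomial J ℝ →ₗ[ℝ] ℝ)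
  (L : MvPolynomial J ℝ) (n k : ℕ), L.IsHomogeneous 1 → 2 * k ≤ n →
  Module.finrank ℝ (LinearMap.range (Qf φ L n k)) ≤ rk φ n k ∧
  (HL φ L n → Module.finrank ℝ (LinearMap.range (Qf φ L n k)) = rk φ n k)

/-- STAY: no change of the signatures if hard Lefschetz holds along a segment -/
def S_STAY : Prop := ∀ (J : Type) [Fintype J] [DecidableEq J] (φ : MvPolynomial J ℝ →ₗ[ℝ] ℝ)
  (L U : MvPolynomial J ℝ) (n : ℕ) (a b : ℝ), L.IsHomogeneous 1 → U.IsHomogeneous 1 → a ≤ b →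
  (∀ s ∈ Set.Icc a b, HL φ (L + C s * U) n) →
  (IDX φ (L + C a * U) n ↔ IDX φ (L + C b * U) n)

/-- RNK: the change of the ranks under a crossing -/
def S_RNK : Prop := ∀ (J : Type) [Fintype J] [DecidableEq J] (φ ψ : MvPolynomial J ℝ →ₗ[ℝ] ℝ)
  (n : ℕ) (lam : J → ℝ) (κ : ℝ) (A B : Finset J), κ ≠ 0 → A.card + B.card = n + 1 →
  B.card ≤ A.card → (∀ j ∈ A, lam j ≠ 0) → (∀ j ∈ B, lam j ≠ 0) →
  (∀ f, f.IsHomogeneous n → ψ f = φ f + κ * eval lam f) →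
  (∀ f k, B.card + k = n → f.IsHomogeneous k → φ (xm B * f) = 0) →
  (∀ f k, A.card + k = n → f.IsHomogeneous k → ψ (xm A * f) = 0) →
  ∀ k, 2 * k ≤ n → rk ψ n k = rk φ n k + if B.card ≤ k then 1 else 0

/-- CRS: the change of the signatures under a crossing. `φ` is the small side, `q = |B|`, the
sign of `κ` is `(-1)^q`; the big side is `s > 0`. -/
def S_CRS : Prop := ∀ (J : Type) [Fintype J] [DecidableEq J] (φ ψ : MvPolynomial J ℝ →ₗ[ℝ] ℝ)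
  (n : ℕ) (lam : J → ℝ) (κ : ℝ) (A B : Finset J) (L U : MvPolynomial J ℝ) (ε : ℝ),
  0 < (-1) ^ B.card * κ → A.card + B.card = n + 1 → B.card ≤ A.card → (∀ j ∈ A, lam j ≠ 0) →
  (∀ j ∈ B, lam j ≠ 0) → (∀ f, f.IsHomogeneous n → ψ f = φ f + κ * eval lam f) →
  (∀ f k, B.card + k = n → f.IsHomogeneous k → φ (xm B * f) = 0) →
  (∀ f k, A.card + k = n → f.IsHomogeneous k → ψ (xm A * f) = 0) →
  L.IsHomogeneous 1 → U.IsHomogeneous 1 → eval lam L = 0 → 0 < eval lam U → 0 < ε →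
  (∀ s, 0 < s → s < ε → HL ψ (L + C s * U) n) → (∀ s, 0 < s → s < ε → HL φ (L - C s * U) n) →
  HL φ L n → ∀ s s', 0 < s → s < ε → 0 < s' → s' < ε →
    (IDX ψ (L + C s * U) n ↔ IDX φ (L - C s' * U) n)

/-- HLA: hard Lefschetz from the Hodge–Riemann relations of the functionals `φ (x_j ·)`, `c j > 0` -/
def S_HLA : Prop := ∀ (J : Type) [Fintype J] [DecidableEq J] (φ : MvPolynomial J ℝ →ₗ[ℝ] ℝ)
  (c : J → ℝ) (n k : ℕ) (a : MvPolynomial J ℝ), (∀ j, 0 ≤ c j) → 2 * k < n →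
  (∀ j, 0 < c j → HRk (φ.comp (LinearMap.mulLeft ℝ (X j))) (Lf c) (n - 1) k) →
  a.IsHomogeneous k → (∀ b, b.IsHomogeneous k → φ (Lf c ^ (n - 2 * k) * (a * b)) = 0) →
  ∀ j, 0 < c j → ∀ b, b.IsHomogeneous (n - 1 - k) → φ (X j * (a * b)) = 0

/-- WAL: at the wall; `a` with `φ (l a b) = 0` for all linear forms `l` vanishing at `lam` -/
def S_WAL : Prop := ∀ (J : Type) [Fintype J] [DecidableEq J] (φ : MvPolynomial J ℝ →ₗ[ℝ] ℝ)
  (lam : J → ℝ) (n k : ℕ) (a : MvPolynomial J ℝ) (B : Finset J), a.IsHomogeneous k → k < n →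
  B.card + k ≤ n → lam ≠ 0 → (∀ j ∈ B, lam j ≠ 0) →
  (∀ f m, B.card + m = n → f.IsHomogeneous m → φ (xm B * f) = 0) →
  (∀ l, l.IsHomogeneous 1 → eval lam l = 0 → ∀ b, b.IsHomogeneous (n - 1 - k) →
    φ (l * (a * b)) = 0) →
  ∀ b, b.IsHomogeneous (n - k) → φ (a * b) = 0

/-- TRL: translation of the polytope -/
def S_TRL : Prop := ∀ (J : Type) [Fintype J] [DecidableEq J] (d : ℕ) (v : J → Ve d)
  (φ : MvPolynomial J ℝ →ₗ[ℝ] ℝ) (c : J → ℝ) (m : Ve d) (n : ℕ), Van v φ n →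
  (HL φ (Lf c) n ↔ HL φ (Lf fun j => c j - dt m (v j)) n) ∧
  ∀ k, 2 * k ≤ n → (HRk φ (Lf c) n k ↔ HRk φ (Lf fun j => c j - dt m (v j)) n k)

/-! ## Real analysis -/

/-- PATH: induction along a ray with finitely many crossings -/
def S_PATH : Prop := ∀ (P : ℝ → Prop) (T : Finset ℝ), (∃ S : ℝ, ∀ s, S < s → P s) →
  (∀ t, 0 ≤ t → t ∉ T → ∃ ε > 0, ∀ s, 0 ≤ s → |s - t| < ε → (P s ↔ P t)) →
  (∀ t ∈ T, 0 < t → ∃ ε > 0, ∀ s s', t - ε < s → s < t → t < s' → s' < t + ε → (P s ↔ P s')) →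
  ∀ s, 0 ≤ s → s ∉ T → P s

/-! ## Geometry of the configuration -/

/-- CF: coefficients with respect to a basis -/
def S_CF : Prop := ∀ (J : Type) [Fintype J] [DecidableEq J] (d : ℕ) (v : J → Ve d) (ξ : Ve d)
  (σ : Finset J), σ.card = d → Ind v σ →
  (∀ j, j ∉ σ → cf v ξ σ j = 0) ∧ ∑ j, cf v ξ σ j • v j = ξ ∧ 0 < dv v σ ∧
  (∀ g : J → ℝ, (∀ j, j ∉ σ → g j = 0) → ∑ j, g j • v j = ξ → g = cf v ξ σ) ∧
  ∀ c : J → ℝ, ∃! m : Ve d, ∀ j ∈ σ, dt m (v j) = c j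

/-- CIR: circuits in general position -/
def S_CIR : Prop := ∀ (J : Type) [Fintype J] [DecidableEq J] (d : ℕ) (v : J → Ve d), GP v →
  ∀ Z : Finset J, Z.card = d + 1 → ∃ lam, Circ v Z lam

/-- CRU: the linear forms which vanish at a circuit; common solutions -/
def S_CRU : Prop := ∀ (J : Type) [Fintype J] [DecidableEq J] (d : ℕ) (v : J → Ve d), GP v →
  ∀ (Z : Finset J) (lam : J → ℝ), Circ v Z lam →
  (∀ c : J → ℝ, (∃ m : Ve d, ∀ j ∈ Z, dt m (v j) = c j) ↔ ∑ j, lam j * c j = 0) ∧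
  (∀ l : MvPolynomial J ℝ, l.IsHomogeneous 1 → eval lam l = 0 →
    ∃ (m : Ve d) (c : J → ℝ), (∀ j ∈ Z, c j = 0) ∧ l = th v m + Lf c)

/-- DIV: divided differences on the line of the solutions -/
def S_DIV : Prop := ∀ (J : Type) [Fintype J] [DecidableEq J] (d : ℕ) (v : J → Ve d) (ξ : Ve d),
  GP v → GX v ξ → ∀ (Z : Finset J) (lam : J → ℝ), Circ v Z lam → ∀ (k : ℕ)
  (f : MvPolynomial J ℝ), k ≤ d → f.IsHomogeneous k →
  ∑ i ∈ pz Z lam, tm v ξ (Z.erase i) f - ∑ i ∈ pz Z (-lam), tm v ξ (Z.erase i) f =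
    if k = d then (∏ j ∈ Z, lam j)⁻¹ * eval lam f else 0

/-- STAB: simple polytopes are stable (`c` moves) -/
def S_STAB : Prop := ∀ (J : Type) [Fintype J] [DecidableEq J] (d : ℕ) (v : J → Ve d)
  (c u : J → ℝ) (F : Finset J), PS v → Sim v c F →
  ∃ ε > 0, ∀ s : ℝ, |s| < ε → Sim v (fun j => c j + s * u j) F ∧
    ∀ σ, F ⊆ σ → (σ ∈ Fa v (fun j => c j + s * u j) ↔ σ ∈ Fa v c)

/-- SWAP: the facets near a crossing -/
def S_SWAP : Prop := ∀ (J : Type) [Fintype J] [DecidableEq J] (d : ℕ) (v : J → Ve d)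
  (c u : J → ℝ) (Z : Finset J) (lam : J → ℝ) (x₀ : Ve d), PS v → GP v → Circ v Z lam →
  0 < ∑ j, lam j * u j → Fe v c x₀ → ac v c x₀ = Z →
  (∀ m, Fe v c m → ¬ Ind v (ac v c m) → m = x₀) →
  ∃ (ε : ℝ) (G : Finset (Finset J)), 0 < ε ∧ (∀ σ ∈ G, ¬ σ ⊆ Z) ∧
    (∀ σ, ¬ σ ⊆ Z → (σ ∈ G ↔ σ ∈ Fa v c)) ∧
    ∀ s, 0 < s → s < ε → Sim v (fun j => c j + s * u j) ∅ ∧ Sim v (fun j => c j - s * u j) ∅ ∧
      Fa v (fun j => c j + s * u j) = G ∪ (pz Z lam).image Z.erase ∧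
      Fa v (fun j => c j - s * u j) = G ∪ (pz Z (-lam)).image Z.erase

/-- GEN: a generic ray: after the start all crossings are at one circuit, transversally -/
def S_GEN : Prop := ∀ (J : Type) [Fintype J] [DecidableEq J] (d : ℕ) (v : J → Ve d) (c : J → ℝ),
  GP v → ∃ (u : J → ℝ) (T : Finset ℝ), (∀ j, 0 < u j) ∧
    (∀ s, 0 < s → s ∉ T → Sim v (fun j => c j - s * u j) ∅) ∧
    ∀ s ∈ T, 0 < s ∧ ((∀ m, Fe v (fun j => c j - s * u j) m →
        Ind v (ac v (fun j => c j - s * u j) m)) ∨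
      ∃ (x₀ : Ve d) (Z : Finset J) (lam : J → ℝ), Circ v Z lam ∧ ∑ j, lam j * u j ≠ 0 ∧
        Fe v (fun j => c j - s * u j) x₀ ∧ ac v (fun j => c j - s * u j) x₀ = Z ∧
        ∀ m, Fe v (fun j => c j - s * u j) m → ¬ Ind v (ac v (fun j => c j - s * u j) m) → m = x₀)

/-- EMP: the polytope becomes empty -/
def S_EMP : Prop := ∀ (J : Type) [Fintype J] [DecidableEq J] (d : ℕ) (v : J → Ve d)
  (c u : J → ℝ), 1 ≤ d → PS v → (∀ j, 0 < u j) →
  ∃ S : ℝ, ∀ s, S < s → ∀ m, ¬ Fe v (fun j => c j - s * u j) m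

/-- VANG: the functional kills lower degrees and linear relations; general position -/
def S_VANG : Prop := ∀ (J : Type) [Fintype J] [DecidableEq J] (d : ℕ) (v : J → Ve d) (ξ : Ve d)
  (c : J → ℝ) (F : Finset J) (n : ℕ), PS v → GP v → GX v ξ → Sim v c F → F.card + n = d →
  Van v (fn v ξ c F) n

/-- NF: nonfaces -/
def S_NF : Prop := ∀ (J : Type) [Fintype J] [DecidableEq J] (d : ℕ) (v : J → Ve d) (ξ : Ve d)
  (S : Finset (Finset J)) (F : Finset J), (∀ σ ∈ S, σ.card = d ∧ Ind v σ) →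
  (∀ f, fnS v ξ S F f = fnS v ξ (S.filter fun σ => F ⊆ σ) F f) ∧
  (∀ B : Finset J, (∀ σ ∈ S, ¬ F ∪ B ⊆ σ) → ∀ f, fnS v ξ S F (xm B * f) = 0) ∧
  ∀ j, j ∉ F → fnS v ξ S (insert j F) = (fnS v ξ S F).comp (LinearMap.mulLeft ℝ (X j))

/-! ## Assembly in one configuration -/

/-- HLG: hard Lefschetz for the face `F` of a polytope which is simple along `F` -/
def S_HLG : Prop := ∀ (J : Type) [Fintype J] [DecidableEq J] (d : ℕ) (v : J → Ve d) (ξ : Ve d)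
  (c : J → ℝ) (F : Finset J) (n : ℕ), PS v → Sim v c F → F.card + n = d →
  Van v (fn v ξ c F) n →
  (∀ j, j ∉ F → ∀ k, k + 1 = n → Van v (fn v ξ c (insert j F)) k ∧
    HR (fn v ξ c (insert j F)) (Lf c) k) → HL (fn v ξ c F) (Lf c) n

/-- HLW: hard Lefschetz at the wall for the small side (facets `G ∪ {Z - i : lam i < 0}`) -/
def S_HLW : Prop := ∀ (J : Type) [Fintype J] [DecidableEq J] (d : ℕ) (v : J → Ve d) (ξ : Ve d)
  (c : J → ℝ) (Z F : Finset J) (lam : J → ℝ) (x₀ : Ve d) (n : ℕ) (S : Finset (Finset J)), GP v →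
  Circ v Z lam → Fe v c x₀ → ac v c x₀ = Z → F ⊆ Z → F.card + n = d →
  (∀ σ ∈ S, σ.card = d) → (∀ σ ∈ S, ∃ i, lam i < 0 ∧ i ∉ σ) →
  (Z \ F).card ≤ 2 * ((pz Z lam) \ F).card → Van v (fnS v ξ S F) n →
  (∀ j, j ∉ Z → ∀ k, k + 1 = n → Van v (fnS v ξ S (insert j F)) k ∧
    HR (fnS v ξ S (insert j F)) (Lf c) k) → HL (fnS v ξ S F) (Lf c) n

/-- GPM: the theorem in general position -/
def S_GPM : Prop := ∀ (J : Type) [Fintype J] [DecidableEq J] (d : ℕ) (v : J → Ve d) (ξ : Ve d)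
  (n : ℕ) (c : J → ℝ) (F : Finset J), PS v → GP v → GX v ξ → Sim v c F → F.card + n = d →
  HR (fn v ξ c F) (Lf c) n

/-! ## Degenerate configurations -/

/-- the number of the facets containing `F` with `k` negative coefficients outside `F` -/
noncomputable def hh {J : Type} [Fintype J] [DecidableEq J] {d : ℕ} (v : J → Ve d) (ξ : Ve d)
    (c : J → ℝ) (F : Finset J) (k : ℕ) : ℕ := by
  classical
  exact ((Fa v c).filter fun σ => F ⊆ σ ∧ ((σ \ F).filter fun j => cf v ξ σ j < 0).card = k).card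

/-- TRI: triangular matrix -/
def S_TRI : Prop := ∀ (J : Type) [Fintype J] [DecidableEq J] (d : ℕ) (v : J → Ve d) (ξ : Ve d)
  (c : J → ℝ) (F : Finset J) (n k : ℕ), GX v ξ → F.card + n = d → k ≤ n →
  hh v ξ c F k ≤ rk (fn v ξ c F) n k

/-- FIL: filtration by the degree -/
def S_FIL : Prop := ∀ (J : Type) [Fintype J] [DecidableEq J] (d : ℕ) (v : J → Ve d) (ξ : Ve d)
  (c : J → ℝ) (F : Finset J) (n : ℕ), GX v ξ → F.card + n = d → Van v (fn v ξ c F) n →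
  ∑ k ∈ Finset.range (n + 1), rk (fn v ξ c F) n k ≤ ((Fa v c).filter fun σ => F ⊆ σ).card

/-- RKH: the ranks are the `h`-numbers -/
def S_RKH : Prop := ∀ (J : Type) [Fintype J] [DecidableEq J] (d : ℕ) (v : J → Ve d) (ξ : Ve d)
  (c : J → ℝ) (F : Finset J) (n k : ℕ), GX v ξ → F.card + n = d → Van v (fn v ξ c F) n → k ≤ n →
  rk (fn v ξ c F) n k = hh v ξ c F k

/-- PER: perturbation into general position -/
def S_PER : Prop := ∀ (J : Type) [Fintype J] [DecidableEq J] (d : ℕ) (v : J → Ve d) (ξ : Ve d)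
  (c : J → ℝ), PS v → GX v ξ → Sim v c ∅ →
  ∃ (w : ℝ → J → Ve d) (ε : ℝ), 0 < ε ∧ w 0 = v ∧ Continuous w ∧
    (∀ t, 0 < t → t < ε → GP (w t) ∧ GX (w t) ξ) ∧
    ∀ t, |t| < ε → PS (w t) ∧ Sim (w t) c ∅ ∧ Fa (w t) c = Fa v c ∧
      ∀ σ ∈ Fa v c, Ind (w t) σ ∧ ∀ j ∈ σ, 0 < cf v ξ σ j * cf (w t) ξ σ j

/-- CNT: the functional is continuous in `v` -/
def S_CNT : Prop := ∀ (J : Type) [Fintype J] [DecidableEq J] (d : ℕ) (ξ : Ve d)
  (w : ℝ → J → Ve d) (U : Set ℝ) (S : Finset (Finset J)) (F : Finset J), Continuous w →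
  (∀ t ∈ U, ∀ σ ∈ S, σ.card = d ∧ Ind (w t) σ ∧ ∀ j ∈ σ, cf (w t) ξ σ j ≠ 0) →
  ∀ f, ContinuousOn (fun t => fnS (w t) ξ S F f) U

/-- VAND: degenerate version of VANG (limit) -/
def S_VAND : Prop := ∀ (J : Type) [Fintype J] [DecidableEq J] (d : ℕ) (v : J → Ve d) (ξ : Ve d)
  (c : J → ℝ) (F : Finset J) (n : ℕ), PS v → GX v ξ → Sim v c ∅ → F.card + n = d →
  Van v (fn v ξ c F) n

/-- EXT: the theorem for all simple polytopes -/
def S_EXT : Prop := ∀ (J : Type) [Fintype J] [DecidableEq J] (d : ℕ) (v : J → Ve d) (ξ : Ve d)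
  (n : ℕ) (c : J → ℝ) (F : Finset J), PS v → GX v ξ → Sim v c ∅ → F.card + n = d →
  HR (fn v ξ c F) (Lf c) n

/-- GXE: generic `ξ` exist -/
def S_GXE : Prop := ∀ (J : Type) [Fintype J] [DecidableEq J] (d : ℕ) (v : J → Ve d),
  ∃ ξ : Ve d, GX v ξ

/-- SPAN: the face ring modulo the linear relations has at most `h_k` dimensions in degree `k`:
every polynomial is a combination of the `x^{R(σ)}` modulo nonfaces and linear relations -/
def S_SPAN : Prop := ∀ (J : Type) [Fintype J] [DecidableEq J] (d : ℕ) (v : J → Ve d) (ξ : Ve d)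
  (c : J → ℝ) (k : ℕ) (f : MvPolynomial J ℝ), PS v → GX v ξ → Sim v c ∅ → f.IsHomogeneous k →
  ∃ (b : Finset J → ℝ) (g : Finset J → MvPolynomial J ℝ) (h : Fin d → MvPolynomial J ℝ),
    (∀ B, (g B) ≠ 0 → (∀ σ ∈ Fa v c, ¬ B ⊆ σ) ∧ B.card ≤ k ∧ (g B).IsHomogeneous (k - B.card)) ∧
    (∀ i, (h i) ≠ 0 → 1 ≤ k ∧ (h i).IsHomogeneous (k - 1)) ∧
    (∀ σ, b σ ≠ 0 → σ ∈ Fa v c ∧ (σ.filter fun j => cf v ξ σ j < 0).card = k) ∧
    f = ∑ σ ∈ Fa v c, C (b σ) * xm (σ.filter fun j => cf v ξ σ j < 0) +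
      ∑ B : Finset J, xm B * g B + ∑ i, th v (Pi.single i 1) * h i

end Pool.Agent.Helper59.LP
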