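import Pool.Agent.Helper59.HR.GPM

/-!
# HR, part VANG: the functional kills lower degrees and the linear relations
-/

set_option autoImplicit false

open MvPolynomial

namespace Pool.Agent.Helper59.HR.VANG

open Pool.Agent.Helper59.LP Pool.Agent.Helper59.HR.GPM

variable {J : Type} [Fintype J] [DecidableEq J] {d : ℕ} {v : J → Ve d} {ξ : Ve d} {n : ℕ}

theorem th_hom (m : Ve d) : (th v m).IsHomogeneous 1 := Lf_hom _

theorem eval_th {Z : Finset J} {lam : J → ℝ} (hC : Circ v Z lam) (m : Ve d) :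
    eval lam (th v m) = 0 := by
  unfold th
  rw [eval_Lf]
  exact rel_dt hC m

theorem regular (hSTAB : S_STAB) (hNF : S_NF) (hPS : PS v) {c u : J → ℝ}
    {F : Finset J} (t : ℝ) (hS : Sim v (fun j => c j - t * u j) F) :
    ∃ ε > 0, ∀ s, |s - t| < ε →
      fn v ξ (fun j => c j - s * u j) F = fn v ξ (fun j => c j - t * u j) F := by
  obtain ⟨ε, hε, h⟩ := hSTAB J d v (fun j => c j - t * u j) (fun j => -(u j)) F hPS hS
  refine ⟨ε, hε, fun s hs => ?_⟩
  have e1 : ∀ r : ℝ, (fun j => (c j - t * u j) + (r - t) * -(u j)) = fun j => c j - r * u j := by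
    intro r; funext j; ring
  have h2 : fn v ξ (fun j => (c j - t * u j) + (s - t) * -(u j)) F =
      fn v ξ (fun j => c j - t * u j) F := by
    unfold fn
    exact fnS_congr hNF (fun σ h => Fa_card h) (fun σ h => Fa_card h) (h (s - t) hs).2
  rwa [e1 s] at h2

theorem cross (hSWAP : S_SWAP) (hDIV : S_DIV) (hPS : PS v) (hGP : GP v) (hGX : GX v ξ)
    {c w : J → ℝ} {F Z : Finset J} {lam : J → ℝ} {x₀ : Ve d} (hC : Circ v Z lam)
    (hw : 0 < ∑ j, lam j * w j) (hfe : Fe v c x₀) (hac : ac v c x₀ = Z)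
    (huniq : ∀ m, Fe v c m → ¬ Ind v (ac v c m) → m = x₀) (hc : F.card + n = d) :
    ∃ ε > 0, ∀ s s', 0 < s → s < ε → 0 < s' → s' < ε →
      (Van v (fn v ξ (fun j => c j + s * w j) F) n ↔
        Van v (fn v ξ (fun j => c j - s' * w j) F) n) := by
  classical
  obtain ⟨ε, G, hε, hG1, hG2, hsw⟩ := hSWAP J d v c w Z lam x₀ hPS hGP hC hw hfe hac huniq
  refine ⟨ε, hε, ?_⟩
  have hpz : pz Z lam ⊆ Z := Finset.filter_subset _ _
  have hpz' : pz Z (-lam) ⊆ Z := Finset.filter_subset _ _
  set Sp := G ∪ (pz Z lam).image Z.erase with hSp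
  set Sm := G ∪ (pz Z (-lam)).image Z.erase with hSm
  have hlow : ∀ k f, k < n → f.IsHomogeneous k → fnS v ξ Sp F f = fnS v ξ Sm F f := by
    intro k f hk hf
    have h1 := hDIV J d v ξ hGP hGX Z lam hC (F.card + k) (xm F * f) (by omega)
      ((xm_hom F).mul hf)
    rw [if_neg (by omega)] at h1
    show dgS v ξ Sp (xm F * f) = dgS v ξ Sm (xm F * f)
    rw [hSp, hSm, dgS_union v ξ G Z _ hG1 hpz, dgS_union v ξ G Z _ hG1 hpz']
    linarith
  have htop : ∀ m k f, k + 1 = n → f.IsHomogeneous k →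
      fnS v ξ Sp F (th v m * f) = fnS v ξ Sm F (th v m * f) := by
    intro m k f hk hf
    have h1 := hDIV J d v ξ hGP hGX Z lam hC d (xm F * (th v m * f)) le_rfl (by
      have := (xm_hom F).mul ((th_hom (v := v) m).mul hf)
      have e : F.card + (1 + k) = d := by omega
      rwa [e] at this)
    rw [if_pos rfl, map_mul, map_mul, eval_th hC m] at h1
    show dgS v ξ Sp (xm F * (th v m * f)) = dgS v ξ Sm (xm F * (th v m * f))
    rw [hSp, hSm, dgS_union v ξ G Z _ hG1 hpz, dgS_union v ξ G Z _ hG1 hpz']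
    linarith
  intro s s' hs1 hs2 hs1' hs2'
  unfold fn
  rw [(hsw s hs1 hs2).2.2.1, (hsw s' hs1' hs2').2.2.2]
  constructor
  · rintro ⟨h1, h2⟩
    exact ⟨fun k f hk hf => by rw [← hlow k f hk hf]; exact h1 k f hk hf,
      fun m k f hk hf => by rw [← htop m k f hk hf]; exact h2 m k f hk hf⟩
  · rintro ⟨h1, h2⟩
    exact ⟨fun k f hk hf => by rw [hlow k f hk hf]; exact h1 k f hk hf,
      fun m k f hk hf => by rw [htop m k f hk hf]; exact h2 m k f hk hf⟩

theorem van_of_empty {c : J → ℝ} {F : Finset J} (h : ∀ m, ¬ Fe v c m) (n : ℕ) :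
    Van v (fn v ξ c F) n := by
  classical
  have h0 : Fa v c = ∅ := by
    apply Finset.eq_empty_iff_forall_notMem.mpr
    intro σ hσ
    unfold Fa at hσ
    obtain ⟨-, -, -, m, hm, -⟩ := Finset.mem_filter.mp hσ
    exact h m hm
  have h1 : ∀ f, fn v ξ c F f = 0 := by
    intro f
    unfold fn fnS dgS
    rw [h0]; simp
  exact ⟨fun k f _ _ => h1 f, fun m k f _ _ => h1 _⟩

theorem main (hDIV : S_DIV) (hSTAB : S_STAB) (hSWAP : S_SWAP) (hGEN : S_GEN) (hEMP : S_EMP)
    (hNF : S_NF) (hPATH : S_PATH) : S_VANG := by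
  intro J _ _ d v ξ c F n hPS hGP hGX hS hc
  rcases Nat.eq_zero_or_pos n with hn | hn
  · subst hn
    exact ⟨fun k f hk _ => absurd hk (Nat.not_lt_zero k), fun m k f hk _ => absurd hk (by omega)⟩
  obtain ⟨u, T, hu, hT1, hT2⟩ := hGEN J d v c hGP
  have key := hPATH (fun s => Van v (fn v ξ (fun j => c j - s * u j) F) n) T
    (by
      obtain ⟨S, hS'⟩ := hEMP J d v c u (by omega) hPS hu
      exact ⟨S, fun s hs => van_of_empty (hS' s hs) _⟩)
    (by
      intro t ht htT
      have hSt : Sim v (fun j => c j - t * u j) F := by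
        rcases eq_or_lt_of_le ht with h | h
        · rw [← h]; simpa using hS
        · exact Sim_mono (hT1 t h htT) (Finset.empty_subset F)
      obtain ⟨ε, hε, h⟩ := regular (ξ := ξ) hSTAB hNF hPS t hSt
      exact ⟨ε, hε, fun s _ hs => by rw [h s hs]⟩)
    (by
      intro t htT ht0
      have hreg : Sim v (fun j => c j - t * u j) F → ∃ ε > 0, ∀ s s', t - ε < s → s < t →
          t < s' → s' < t + ε → (Van v (fn v ξ (fun j => c j - s * u j) F) n ↔
            Van v (fn v ξ (fun j => c j - s' * u j) F) n) := by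
        intro hSt
        obtain ⟨ε, hε, h⟩ := regular (ξ := ξ) hSTAB hNF hPS t hSt
        refine ⟨ε, hε, fun s s' h1 h2 h3 h4 => ?_⟩
        rw [h s (by rw [abs_of_neg (by linarith)]; linarith),
          h s' (by rw [abs_of_pos (by linarith)]; linarith)]
      rcases (hT2 t htT).2 with h | ⟨x₀, Z, lam, hC, hne, hfe, hac, huniq⟩
      · exact hreg fun m h1 _ => h m h1
      have main : ∀ (lam' : J → ℝ), Circ v Z lam' → 0 < ∑ j, lam' j * u j →
          ∃ ε > 0, ∀ s s', t - ε < s → s < t → t < s' → s' < t + ε →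
          (Van v (fn v ξ (fun j => c j - s * u j) F) n ↔
            Van v (fn v ξ (fun j => c j - s' * u j) F) n) := by
        intro lam' hC' hpos
        obtain ⟨ε, hε, h⟩ := cross hSWAP hDIV hPS hGP hGX hC' hpos hfe hac huniq hc
        refine ⟨ε, hε, fun s s' h1 h2 h3 h4 => ?_⟩
        have h5 := h (t - s) (s' - t) (by linarith) (by linarith) (by linarith) (by linarith)
        have e1 : (fun j => c j - t * u j + (t - s) * u j) = fun j => c j - s * u j := by
          funext j; ring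
        have e2 : (fun j => c j - t * u j - (s' - t) * u j) = fun j => c j - s' * u j := by
          funext j; ring
        rwa [e1, e2] at h5
      rcases lt_or_gt_of_ne hne with h | h
      · exact main (-lam) (Circ_neg hC) (by simpa using h)
      · exact main lam hC h)
  have h0 : (0 : ℝ) ∉ T := fun h => lt_irrefl _ (hT2 0 h).1
  simpa using key 0 le_rfl h0

end Pool.Agent.Helper59.HR.VANG
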